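import Mathlib
import Pool.Agent.H1.AHP.Defs
import Pool.Agent.H1.AHP.Proof

set_option autoImplicit false

namespace Pool.Agent.Results.MP_43980c_co.TranslationsNotGroup

open Pool.Agent.H1.AHP

/-- There is a (finite) affine Hjelmslev plane with two translations whose composite is not a
translation (for any equivalence relation on the blocks taken as parallelism). -/
theorem result : ∃ (P B : Type) (I : P → B → Prop) (par : Setoid B),
    IsAHPlane I par ∧ ∃ σ τ : Equiv.Perm P × Equiv.Perm B,
      IsTranslation I par σ ∧ IsTranslation I par τ ∧
        ∀ par' : Setoid B, ¬ IsTranslation I par' (σ * τ) :=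
  ⟨Pt, Bl, Inc, par, isAHPlane, (sP, sB), (tP, tB), transS, transT, not_trans⟩

end Pool.Agent.Results.MP_43980c_co.TranslationsNotGroup
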